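import Pool.Agent.Y969.SM.Stm2

set_option autoImplicit false

/-! Project SX, job SX-TL2: mean square of the Taylor terms. -/

namespace Pool.Agent.Y293.SX

open Finset Filter Topology MeasureTheory Complex
open Pool.Agent.Y969.GP (ff ht lam FR PX cr V mB)
open Pool.Agent.H306R2.SM (om cl Yf)
open Pool.Agent.H262R4.TM (Rng Ck)
open Pool.Agent.W184.NZ (mh w1)
open Pool.Agent.Y969.SM

noncomputable section

/-! ### pairs -/

lemma FR_mem {Z : ℕ} {p : ℕ × ℕ} (h : p ∈ FR Z) :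
    1 ≤ p.1 ∧ 1 ≤ p.2 ∧ p.1 ≤ Z ∧ p.2 ≤ Z ∧ p.1 * p.2 ≤ Z := by
  simp only [Pool.Agent.Y969.GP.FR, Pool.Agent.Y969.GP.PS, Finset.mem_filter, Finset.mem_product,
    Finset.mem_Icc] at h
  exact ⟨h.1.1.1.1, h.1.1.2.1, h.1.1.1.2, h.1.1.2.2, h.1.2⟩

lemma FR_card (Z : ℕ) : (FR Z).card ≤ Z ^ 2 := by
  unfold Pool.Agent.Y969.GP.FR Pool.Agent.Y969.GP.PS
  refine (Finset.card_filter_le _ _).trans ((Finset.card_filter_le _ _).trans ?_)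
  rw [Finset.card_product, Nat.card_Icc, sq]
  simp

lemma ht_pos {p : ℕ × ℕ} (h1 : 1 ≤ p.1) (h2 : 1 ≤ p.2) : 1 ≤ ht p := by
  unfold Pool.Agent.Y969.GP.ht
  have a : (1:ℝ) ≤ p.1 := by exact_mod_cast h1
  have b : (1:ℝ) ≤ p.2 := by exact_mod_cast h2
  nlinarith

/-- `e^(it lam p) = √(ht p) mh t p` -/
lemma mh_eq (t : ℝ) {p : ℕ × ℕ} (h1 : 1 ≤ p.1) (h2 : 1 ≤ p.2) :
    cexp (I * ((t * lam p : ℝ) : ℂ)) = ((√(ht p) : ℝ) : ℂ) * mh t p := by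
  have a : (0:ℝ) < p.1 := by exact_mod_cast h1
  have b : (0:ℝ) < p.2 := by exact_mod_cast h2
  have a' : (p.1 : ℂ) ≠ 0 := by exact_mod_cast a.ne'
  have b' : (p.2 : ℂ) ≠ 0 := by exact_mod_cast b.ne'
  have e1 : ((√(ht p) : ℝ) : ℂ) = cexp (((Real.log p.1 + Real.log p.2 : ℝ) : ℂ) / 2) := by
    have : √(ht p) = Real.exp ((Real.log p.1 + Real.log p.2) / 2) := by
      rw [Real.exp_half, Real.exp_add, Real.exp_log a, Real.exp_log b]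
      rfl
    rw [this]
    push_cast
    rfl
  have e2 : mh t p = (p.1 : ℂ) ^ (-(1 / 2 + t * Complex.I)) * (p.2 : ℂ) ^ (-(1 / 2 - t * Complex.I)) := rfl
  rw [e1, e2, Complex.cpow_def_of_ne_zero a', Complex.cpow_def_of_ne_zero b', ← Complex.exp_add,
    ← Complex.exp_add]
  congr 1
  unfold Pool.Agent.Y969.GP.lam
  rw [← Complex.natCast_log, ← Complex.natCast_log]
  push_cast
  ring

lemma prod_pair {n : ℕ} (q : Fin n → ℕ × ℕ) : (∏ j, (q j).1, ∏ j, (q j).2) = ∏ j, q j := by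
  refine Prod.ext ?_ ?_
  · rw [Prod.fst_prod]
  · rw [Prod.snd_prod]

lemma exp_Lam (t : ℝ) {n : ℕ} (q : Fin n → ℕ × ℕ) (h : ∀ j, 1 ≤ (q j).1 ∧ 1 ≤ (q j).2) :
    cexp (I * ((t * Lam q : ℝ) : ℂ)) =
      ((∏ j, √(ht (q j)) : ℝ) : ℂ) * mh t (∏ j, (q j).1, ∏ j, (q j).2) := by
  rw [prod_pair, map_prod]
  push_cast
  rw [← Finset.prod_mul_distrib]
  have : ∀ j, ((√(ht (q j)) : ℝ) : ℂ) * mh t (q j) = cexp (I * ((t * lam (q j) : ℝ) : ℂ)) :=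
    fun j => (mh_eq t (h j).1 (h j).2).symm
  simp only [this]
  rw [← Complex.exp_sum, ← Finset.mul_sum]
  congr 2
  unfold Lam
  push_cast
  rw [Finset.mul_sum]

/-! ### integrability -/

lemma om_int (κ m : ℕ) (T : ℝ) (hκ : 0 < κ) (hT : 1 ≤ T) (F : ℝ → ℝ) (B : ℝ) (hF : Continuous F)
    (hb : ∀ t : ℝ, 0 ≤ t → |F t| ≤ B * (1 + t) ^ 4) :
    IntegrableOn (fun t => om κ (κ / T) t * (((t - T) / T) ^ m * F t)) (Set.Ioi 0) := by
  have hκ' : (0:ℝ) < κ := by exact_mod_cast hκ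
  have hδ : 0 < (κ : ℝ) / T := by positivity
  have hT0 : 0 < T := by linarith
  have hB : 0 ≤ B := by
    have := hb 0 le_rfl
    have h2 := abs_nonneg (F 0)
    nlinarith
  have hc : Continuous (fun t : ℝ => om κ (κ / T) t * (((t - T) / T) ^ m * F t)) := by
    unfold Pool.Agent.H306R2.SM.om
    fun_prop
  refine integrable_of_isBigO_exp_neg (b := (κ : ℝ) / T / 2) (by positivity) hc.continuousOn ?_
  -- bound by a polynomial times the exponential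
  have hpoly : Tendsto (fun t : ℝ => (2 * t) ^ (κ + m + 4) * Real.exp (-((κ : ℝ) / T / 2 * t))) atTop (𝓝 0) := by
    have h0 := (Real.tendsto_pow_mul_exp_neg_atTop_nhds_zero (κ + m + 4)).comp
      (tendsto_id.const_mul_atTop (show 0 < (κ : ℝ) / T / 2 by positivity))
    have h1 := h0.const_mul ((2 / ((κ : ℝ) / T / 2)) ^ (κ + m + 4))
    rw [mul_zero] at h1
    refine h1.congr fun t => ?_
    simp only [Function.comp, id]
    rw [← mul_assoc, ← mul_pow]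
    congr 2
    field_simp
  have hev : ∀ᶠ t : ℝ in atTop, (2 * t) ^ (κ + m + 4) * Real.exp (-((κ : ℝ) / T / 2 * t)) ≤ 1 :=
    (hpoly.eventually (gt_mem_nhds one_pos)).mono fun t ht => ht.le
  refine Asymptotics.IsBigO.of_bound (((κ : ℝ) / T) ^ (κ + 1) / (κ.factorial : ℝ) * B) ?_
  filter_upwards [hev, eventually_ge_atTop (1:ℝ)] with t ht h1
  have ht0 : 0 ≤ t := by linarith
  rw [Real.norm_eq_abs, Real.norm_eq_abs, abs_of_pos (Real.exp_pos _)]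
  unfold Pool.Agent.H306R2.SM.om
  rw [abs_mul, abs_mul, abs_div, abs_mul, abs_mul, abs_of_pos (Real.exp_pos _), abs_of_nonneg (by positivity : 0 ≤ ((κ : ℝ) / T) ^ (κ + 1)),
    abs_of_nonneg (by positivity : 0 ≤ t ^ κ), abs_of_nonneg (by positivity : (0:ℝ) ≤ (κ.factorial : ℝ))]
  have b1 : |((t - T) / T) ^ m| ≤ (2 * t) ^ m := by
    rw [abs_pow]
    refine pow_le_pow_left₀ (abs_nonneg _) ?_ m
    have e : (t - T) / T = t / T - 1 := by field_simp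
    have h3 : 0 ≤ t / T := by positivity
    have h4 : t / T ≤ t := div_le_self ht0 hT
    rw [e, abs_le]
    constructor <;> linarith
  have b2 : |F t| ≤ B * (2 * t) ^ 4 := (hb t ht0).trans (by gcongr; linarith)
  have b3 : t ^ κ ≤ (2 * t) ^ κ := pow_le_pow_left₀ ht0 (by linarith) κ
  have e1 : Real.exp (-((κ : ℝ) / T * t)) = Real.exp (-((κ : ℝ) / T / 2 * t)) * Real.exp (-((κ : ℝ) / T / 2) * t) := by
    rw [← Real.exp_add]; congr 1; ring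
  calc ((κ : ℝ) / T) ^ (κ + 1) * t ^ κ * Real.exp (-((κ : ℝ) / T * t)) / (κ.factorial : ℝ) *
        (|((t - T) / T) ^ m| * |F t|)
      ≤ ((κ : ℝ) / T) ^ (κ + 1) * (2 * t) ^ κ * Real.exp (-((κ : ℝ) / T * t)) / (κ.factorial : ℝ) *
        ((2 * t) ^ m * (B * (2 * t) ^ 4)) := by gcongr
    _ = ((κ : ℝ) / T) ^ (κ + 1) / (κ.factorial : ℝ) * B *
        ((2 * t) ^ (κ + m + 4) * Real.exp (-((κ : ℝ) / T / 2 * t))) * Real.exp (-((κ : ℝ) / T / 2) * t) := by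
        rw [e1, pow_add, pow_add]; ring
    _ ≤ ((κ : ℝ) / T) ^ (κ + 1) / (κ.factorial : ℝ) * B * 1 * Real.exp (-((κ : ℝ) / T / 2) * t) := by
        gcongr
    _ = _ := by ring

/-! ### expansion of the terms -/

/-- the coefficient of the tuple `q` -/
def cf (k : ℕ) {n : ℕ} (a : Fin n → Fin (n + 2)) (κ : ℕ) (T : ℝ) (q : Fin n → ℕ × ℕ) : ℂ :=
  ((∏ j, kc (a j) (q j) : ℝ) : ℂ) * (((∏ j, √(ht (q j)) : ℝ) : ℂ) *
    ∫ t in Set.Ioi (0:ℝ), ((om κ (κ / T) t * (((t - T) / T) ^ (∑ j, ke (a j)) * F0 k T t) : ℝ) : ℂ) *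
      mh t (∏ j, (q j).1, ∏ j, (q j).2))

lemma norm_e (x : ℝ) : ‖cexp (I * (x : ℂ))‖ = 1 := by
  rw [mul_comm]; exact Complex.norm_exp_ofReal_mul_I x

lemma TA_eq (k : ℕ) {n : ℕ} (Z : ℕ) (a : Fin n → Fin (n + 2)) (κ : ℕ) (T : ℝ) (c : Fin n → ℝ)
    (hint : IntegrableOn (fun t => om κ (κ / T) t * (((t - T) / T) ^ (∑ j, ke (a j)) * F0 k T t))
      (Set.Ioi 0)) :
    TA k Z a κ T c = ∑ q ∈ Fintype.piFinset (fun _ : Fin n => FR Z),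
      cf k a κ T q * ∏ j, cexp (I * ((c j * lam (q j) : ℝ) : ℂ)) := by
  unfold TA
  set w : ℝ → ℝ := fun t => om κ (κ / T) t * (((t - T) / T) ^ (∑ j, ke (a j)) * F0 k T t) with hw
  have e1 : ∀ t : ℝ, ((w t : ℝ) : ℂ) * ∏ j, KK Z (a j) (t + c j) =
      ∑ q ∈ Fintype.piFinset (fun _ : Fin n => FR Z),
        (((∏ j, kc (a j) (q j) : ℝ) : ℂ) * ∏ j, cexp (I * ((c j * lam (q j) : ℝ) : ℂ))) *
          (((w t : ℝ) : ℂ) * cexp (I * ((t * Lam q : ℝ) : ℂ))) := by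
    intro t
    unfold KK
    rw [Finset.prod_univ_sum, Finset.mul_sum]
    refine Finset.sum_congr rfl fun q hq => ?_
    rw [Finset.prod_mul_distrib]
    have e2 : ∏ j, cexp (I * (((t + c j) * lam (q j) : ℝ) : ℂ)) =
        (∏ j, cexp (I * ((c j * lam (q j) : ℝ) : ℂ))) * cexp (I * ((t * Lam q : ℝ) : ℂ)) := by
      rw [← Complex.exp_sum, ← Complex.exp_sum, ← Complex.exp_add]
      congr 1
      unfold Lam
      push_cast
      rw [Finset.mul_sum, Finset.mul_sum, ← Finset.sum_add_distrib]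
      refine Finset.sum_congr rfl fun j _ => ?_
      ring
    rw [e2]
    push_cast
    ring
  have hI : ∀ q : Fin n → ℕ × ℕ, Integrable (fun t : ℝ => ((w t : ℝ) : ℂ) * cexp (I * ((t * Lam q : ℝ) : ℂ)))
      (volume.restrict (Set.Ioi 0)) := by
    intro q
    have h0 : Integrable (fun t : ℝ => ((w t : ℝ) : ℂ)) (volume.restrict (Set.Ioi 0)) := Integrable.ofReal hint
    refine h0.mono (h0.aestronglyMeasurable.mul (Continuous.aestronglyMeasurable (by fun_prop))) ?_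
    refine Filter.Eventually.of_forall fun t => ?_
    rw [norm_mul, norm_e, mul_one]
  have e4 : (fun t : ℝ => ((w t : ℝ) : ℂ) * ∏ j, KK Z (a j) (t + c j)) = fun t : ℝ =>
      ∑ q ∈ Fintype.piFinset (fun _ : Fin n => FR Z),
        (((∏ j, kc (a j) (q j) : ℝ) : ℂ) * ∏ j, cexp (I * ((c j * lam (q j) : ℝ) : ℂ))) *
          (((w t : ℝ) : ℂ) * cexp (I * ((t * Lam q : ℝ) : ℂ))) := funext e1
  rw [e4, integral_finsetSum _ (fun q _ => (hI q).const_mul _)]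
  refine Finset.sum_congr rfl fun q hq => ?_
  rw [integral_const_mul]
  unfold cf
  have hq' : ∀ j, 1 ≤ (q j).1 ∧ 1 ≤ (q j).2 := fun j =>
    ⟨(FR_mem (Fintype.mem_piFinset.1 hq j)).1, (FR_mem (Fintype.mem_piFinset.1 hq j)).2.1⟩
  have e3 : ∀ t : ℝ, ((w t : ℝ) : ℂ) * cexp (I * ((t * Lam q : ℝ) : ℂ)) =
      ((∏ j, √(ht (q j)) : ℝ) : ℂ) * (((w t : ℝ) : ℂ) * mh t (∏ j, (q j).1, ∏ j, (q j).2)) := by
    intro t
    rw [exp_Lam t q hq']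
    ring
  simp only [e3]
  rw [integral_const_mul]
  ring

/-! ### bounds of the coefficients -/

lemma kc_bound {n : ℕ} (i : Fin (n + 2)) {p : ℕ × ℕ} (h : 1 ≤ ht p) :
    |kc i p| * √(ht p) ≤ 21 * ht p ^ (1 / 20 : ℝ) := by
  have h0 : 0 < ht p := by linarith
  have hs : 0 < √(ht p) := Real.sqrt_pos.2 h0
  have h1 : (1:ℝ) ≤ ht p ^ (1 / 20 : ℝ) := Real.one_le_rpow h (by norm_num)
  have hl : Real.log (ht p) ≤ ht p ^ (1 / 20 : ℝ) / (1 / 20) := Real.log_le_rpow_div h0.le (by norm_num)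
  have hl0 : 0 ≤ Real.log (ht p) := Real.log_nonneg h
  unfold kc
  split_ifs
  · rw [abs_of_nonneg (by positivity)]
    have : (√(ht p))⁻¹ * Real.log (ht p) * √(ht p) = Real.log (ht p) := by field_simp
    rw [this]; linarith
  · rw [abs_of_nonneg (by positivity), inv_mul_cancel₀ hs.ne']; linarith

lemma kc_prod {n : ℕ} (a : Fin n → Fin (n + 2)) (q : Fin n → ℕ × ℕ) (h : ∀ j, 1 ≤ ht (q j)) :
    |∏ j, kc (a j) (q j)| * ∏ j, √(ht (q j)) ≤ 21 ^ n * (∏ j, ht (q j)) ^ (1 / 20 : ℝ) := by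
  rw [Finset.abs_prod, ← Finset.prod_mul_distrib,
    ← Real.finsetProd_rpow _ _ (fun j _ => by linarith [h j])]
  calc _ ≤ ∏ j : Fin n, (21 * ht (q j) ^ (1 / 20 : ℝ)) :=
        Finset.prod_le_prod (fun j _ => by positivity) fun j _ => kc_bound (a j) (h j)
    _ = _ := by rw [Finset.prod_mul_distrib]; simp

/-- the square of the bound -/
lemma sq_bound (P g L δ C K X : ℝ) (hP : 1 ≤ P) (hX0 : 0 ≤ X) (hX : X ≤ K * P ^ (1 / 20 : ℝ) * (C * (L ^ 4 * (P ^ (1 / 20 : ℝ) * g / P) + δ))) :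
    X ^ 2 ≤ 2 * (K * C) ^ 2 * (L ^ 8 * (P ^ (-2 + 1 / 5 : ℝ) * g ^ 2) + P ^ (1 / 10 : ℝ) * δ ^ 2) := by
  have hP0 : 0 < P := by linarith
  have e1 : P ^ (1 / 20 : ℝ) * P ^ (1 / 20 : ℝ) = P ^ (1 / 10 : ℝ) := by
    rw [← Real.rpow_add hP0]; norm_num
  have e2 : P ^ (1 / 10 : ℝ) * P ^ (1 / 10 : ℝ) / P ^ 2 = P ^ (-2 + 1 / 5 : ℝ) := by
    rw [← Real.rpow_add hP0, ← Real.rpow_natCast P 2, ← Real.rpow_sub hP0]; norm_num
  have h1 : X ^ 2 ≤ (K * P ^ (1 / 20 : ℝ) * (C * (L ^ 4 * (P ^ (1 / 20 : ℝ) * g / P) + δ))) ^ 2 :=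
    pow_le_pow_left₀ hX0 hX 2
  refine h1.trans ?_
  set r := P ^ (1 / 20 : ℝ) with hr
  have h2 : (L ^ 4 * (r * g / P) + δ) ^ 2 ≤ 2 * ((L ^ 4 * (r * g / P)) ^ 2 + δ ^ 2) := by
    nlinarith [sq_nonneg (L ^ 4 * (r * g / P) - δ)]
  calc (K * r * (C * (L ^ 4 * (r * g / P) + δ))) ^ 2
      = (K * C) ^ 2 * (r * r) * (L ^ 4 * (r * g / P) + δ) ^ 2 := by ring
    _ ≤ (K * C) ^ 2 * (r * r) * (2 * ((L ^ 4 * (r * g / P)) ^ 2 + δ ^ 2)) := by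
        have : 0 ≤ r * r := mul_self_nonneg r
        gcongr
    _ = 2 * (K * C) ^ 2 * (L ^ 8 * ((r * r) * (r * r) / P ^ 2 * g ^ 2) + (r * r) * δ ^ 2) := by
        field_simp
    _ = _ := by rw [e1, e2]

lemma ke_le {n : ℕ} (i : Fin (n + 2)) : ke i ≤ n + 2 := by
  unfold ke
  split_ifs
  · omega
  · omega

lemma ke_sum_le {n : ℕ} (a : Fin n → Fin (n + 2)) : ∑ j, ke (a j) ≤ n * (n + 2) := by
  calc _ ≤ ∑ _j : Fin n, (n + 2) := Finset.sum_le_sum fun j _ => ke_le (a j)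
    _ = _ := by simp

lemma fst_le {n Z : ℕ} {q : Fin n → ℕ × ℕ} (hq : ∀ j, q j ∈ FR Z) {T σ η : ℝ} (hT : 1 ≤ T)
    (hZ : (Z : ℝ) ≤ T ^ σ) (hs : σ * n ≤ η) :
    ((∏ j, (q j).1 : ℕ) : ℝ) ≤ T ^ η ∧ ((∏ j, (q j).2 : ℕ) : ℝ) ≤ T ^ η := by
  have h0 : (Z : ℝ) ^ n ≤ T ^ η := by
    calc (Z : ℝ) ^ n ≤ (T ^ σ) ^ n := pow_le_pow_left₀ (Nat.cast_nonneg _) hZ n
      _ = T ^ (σ * n) := by rw [Real.rpow_mul_natCast (by linarith)]
      _ ≤ T ^ η := Real.rpow_le_rpow_of_exponent_le hT hs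
  have h1 : ∏ j, (q j).1 ≤ Z ^ n := by
    calc _ ≤ ∏ _j : Fin n, Z := Finset.prod_le_prod' fun j _ => (FR_mem (hq j)).2.2.1
      _ = _ := by simp
  have h2 : ∏ j, (q j).2 ≤ Z ^ n := by
    calc _ ≤ ∏ _j : Fin n, Z := Finset.prod_le_prod' fun j _ => (FR_mem (hq j)).2.2.2.1
      _ = _ := by simp
  constructor
  · calc ((∏ j, (q j).1 : ℕ) : ℝ) ≤ ((Z ^ n : ℕ) : ℝ) := by exact_mod_cast h1
      _ = (Z : ℝ) ^ n := by push_cast; rfl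
      _ ≤ _ := h0
  · calc ((∏ j, (q j).2 : ℕ) : ℝ) ≤ ((Z ^ n : ℕ) : ℝ) := by exact_mod_cast h2
      _ = (Z : ℝ) ^ n := by push_cast; rfl
      _ ≤ _ := h0

lemma P_le {n Z : ℕ} {q : Fin n → ℕ × ℕ} (hq : ∀ j, q j ∈ FR Z) :
    1 ≤ ∏ j, ht (q j) ∧ ∏ j, ht (q j) ≤ (Z : ℝ) ^ n := by
  have h1 : ∀ j, 1 ≤ ht (q j) := fun j => ht_pos (FR_mem (hq j)).1 (FR_mem (hq j)).2.1
  constructor
  · calc (1:ℝ) = ∏ _j : Fin n, (1:ℝ) := by simp
      _ ≤ _ := Finset.prod_le_prod (fun _ _ => zero_le_one) fun j _ => h1 j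
  · calc _ ≤ ∏ _j : Fin n, (Z : ℝ) := Finset.prod_le_prod (fun j _ => by linarith [h1 j]) fun j _ => by
            have := (FR_mem (hq j)).2.2.2.2
            unfold Pool.Agent.Y969.GP.ht
            exact_mod_cast this
      _ = _ := by simp

/-- the sum of the squares of the coefficients -/
lemma sum_bound {n : ℕ} (Z : ℕ) (T L δ C C' σ : ℝ) (X : (Fin n → ℕ × ℕ) → ℝ) (hT : 1 ≤ T) (hZ1 : 1 ≤ Z)
    (hZ : (Z : ℝ) ≤ T ^ σ) (hL : 1 ≤ L) (η2 : ℝ) (hδ : δ = T ^ (-η2)) (hs : σ * (3 * n) ≤ 2 * η2)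
    (hX0 : ∀ q, 0 ≤ X q)
    (hX : ∀ q : Fin n → ℕ × ℕ, (∀ j, q j ∈ FR Z) → X q ≤ 21 ^ n * (∏ j, ht (q j)) ^ (1 / 20 : ℝ) *
      (C * (L ^ 4 * ((∏ j, ht (q j)) ^ (1 / 20 : ℝ) * (Nat.gcd (∏ j, (q j).1) (∏ j, (q j).2) : ℝ) /
        (∏ j, ht (q j))) + δ)))
    (hA : ∑ q ∈ Fintype.piFinset (fun _ : Fin n => FR Z), (∏ j, ht (q j)) ^ (-2 + 1 / 5 : ℝ) *
      (Nat.gcd (∏ j, (q j).1) (∏ j, (q j).2) : ℝ) ^ 2 ≤ C') :
    ∑ q ∈ Fintype.piFinset (fun _ : Fin n => FR Z), X q ^ 2 ≤ 2 * (21 ^ n * C) ^ 2 * ((C' + 1) * L ^ 8) := by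
  have hZ1' : (1:ℝ) ≤ Z := by exact_mod_cast hZ1
  have hq0 : ∀ q ∈ Fintype.piFinset (fun _ : Fin n => FR Z), ∀ j, q j ∈ FR Z :=
    fun q hq j => Fintype.mem_piFinset.1 hq j
  have h1 : ∀ q ∈ Fintype.piFinset (fun _ : Fin n => FR Z), X q ^ 2 ≤
      2 * (21 ^ n * C) ^ 2 * (L ^ 8 * ((∏ j, ht (q j)) ^ (-2 + 1 / 5 : ℝ) *
        (Nat.gcd (∏ j, (q j).1) (∏ j, (q j).2) : ℝ) ^ 2) + (Z : ℝ) ^ n * δ ^ 2) := by
    intro q hq
    have hP := P_le (hq0 q hq)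
    have h2 := sq_bound _ _ L δ C (21 ^ n) (X q) hP.1 (hX0 q) (hX q (hq0 q hq))
    refine h2.trans ?_
    have h3 : (∏ j, ht (q j)) ^ (1 / 10 : ℝ) ≤ (Z : ℝ) ^ n := by
      calc _ ≤ (∏ j, ht (q j)) ^ (1 : ℝ) := Real.rpow_le_rpow_of_exponent_le hP.1 (by norm_num)
        _ = ∏ j, ht (q j) := Real.rpow_one _
        _ ≤ _ := hP.2
    have : 0 ≤ δ ^ 2 := sq_nonneg _
    gcongr
  refine (Finset.sum_le_sum h1).trans ?_
  rw [← Finset.mul_sum, Finset.sum_add_distrib, ← Finset.mul_sum, Finset.sum_const, nsmul_eq_mul]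
  have hcard : ((Fintype.piFinset (fun _ : Fin n => FR Z)).card : ℝ) ≤ (Z : ℝ) ^ (2 * n) := by
    rw [Fintype.card_piFinset]
    simp only [Finset.prod_const, Finset.card_univ, Fintype.card_fin]
    rw [pow_mul]
    have := FR_card Z
    have h5 : ((FR Z).card : ℝ) ≤ (Z : ℝ) ^ 2 := by exact_mod_cast this
    push_cast
    exact pow_le_pow_left₀ (Nat.cast_nonneg _) h5 n
  have h6 : (Z : ℝ) ^ (2 * n) * ((Z : ℝ) ^ n * δ ^ 2) ≤ 1 := by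
    have hT0 : 0 < T := by linarith
    have e1 : (Z : ℝ) ^ (2 * n) * (Z : ℝ) ^ n = (Z : ℝ) ^ (3 * n) := by rw [← pow_add]; congr 1; ring
    have e2 : (Z : ℝ) ^ (3 * n) ≤ T ^ (2 * η2) := by
      calc (Z : ℝ) ^ (3 * n) ≤ (T ^ σ) ^ (3 * n) := pow_le_pow_left₀ (Nat.cast_nonneg _) hZ _
        _ = T ^ (σ * (3 * n : ℕ)) := by rw [Real.rpow_mul_natCast hT0.le]
        _ ≤ T ^ (2 * η2) := Real.rpow_le_rpow_of_exponent_le hT (by push_cast; exact hs)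
    have e3 : δ ^ 2 = T ^ (-(2 * η2)) := by
      rw [hδ, ← Real.rpow_mul_natCast hT0.le]; congr 1; push_cast; ring
    rw [← mul_assoc, e1, e3]
    calc _ ≤ T ^ (2 * η2) * T ^ (-(2 * η2)) := by gcongr
      _ = 1 := by rw [← Real.rpow_add hT0]; simp
  have h7 : ((Fintype.piFinset (fun _ : Fin n => FR Z)).card : ℝ) * ((Z : ℝ) ^ n * δ ^ 2) ≤ 1 :=
    (mul_le_mul_of_nonneg_right hcard (by positivity)).trans h6
  have h8 : (1:ℝ) ≤ L ^ 8 := one_le_pow₀ hL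
  have h9 : L ^ 8 * ∑ q ∈ Fintype.piFinset (fun _ : Fin n => FR Z), (∏ j, ht (q j)) ^ (-2 + 1 / 5 : ℝ) *
      (Nat.gcd (∏ j, (q j).1) (∏ j, (q j).2) : ℝ) ^ 2 ≤ L ^ 8 * C' :=
    mul_le_mul_of_nonneg_left hA (by positivity)
  refine mul_le_mul_of_nonneg_left ?_ (by positivity)
  calc _ ≤ L ^ 8 * C' + 1 := add_le_add h9 h7
    _ ≤ (C' + 1) * L ^ 8 := by linarith [h8]

theorem t_TL2 (k : ℕ) (h1 : S_UB k) (h2 : S_ORT) (h3 : S_ARI) (h4 : S_FB k) : S_TL2 k := by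
  obtain ⟨η1, η2, hη1, hη2, hUB⟩ := h1
  intro n A hA
  obtain ⟨C', hC', hAR⟩ := h3 n (1 / 5) (by norm_num)
  choose Cd hCd hCdev using fun d => hUB d (1 / 20) (by norm_num)
  set D := n * (n + 2) with hD
  set Cm := ∑ d ∈ Finset.range (D + 1), Cd d with hCm
  have hCm0 : 0 < Cm := Finset.sum_pos (fun d _ => hCd d) ⟨0, by simp⟩
  have hCle : ∀ d, d ≤ D → Cd d ≤ Cm := fun d hd =>
    Finset.single_le_sum (f := Cd) (fun i _ => (hCd i).le) (Finset.mem_range.2 (by omega))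
  have n0 : (0:ℝ) ≤ n := Nat.cast_nonneg n
  refine ⟨min (η1 / (n + 1)) (min (η2 / (2 * (n + 1))) (1 / (4 * (n + 1)))),
    4 * (21 ^ n * Cm) ^ 2 * (C' + 1), by positivity, by positivity, fun σ hσ hσ1 => ?_⟩
  have s1 : σ ≤ η1 / (n + 1) := hσ1.trans (min_le_left _ _)
  have s2 : σ ≤ η2 / (2 * (n + 1)) := hσ1.trans ((min_le_right _ _).trans (min_le_left _ _))
  have s3 : σ ≤ 1 / (4 * (n + 1)) := hσ1.trans ((min_le_right _ _).trans (min_le_right _ _))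
  have s1' : σ * n ≤ η1 := by
    rw [le_div_iff₀ (by positivity)] at s1; nlinarith
  have s2' : σ * (3 * n) ≤ 2 * η2 := by
    rw [le_div_iff₀ (by positivity)] at s2; nlinarith
  have s3' : σ * (2 * n + 1) ≤ 1 / 2 := by
    rw [le_div_iff₀ (by positivity)] at s3; nlinarith
  have hev : ∀ᶠ T : ℝ in atTop, ∀ d ∈ Finset.range (D + 1), ∀ κ : ℕ, Rng T κ → (κ : ℝ) ≤ 3 * Real.log T ^ 2 →
      ∀ h l : ℕ, 1 ≤ h → 1 ≤ l → (h : ℝ) ≤ T ^ η1 → (l : ℝ) ≤ T ^ η1 →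
      ‖∫ t in Set.Ioi (0:ℝ), ((om κ (κ / T) t * (((t - T) / T) ^ d * F0 k T t) : ℝ) : ℂ) * mh t (h, l)‖ ≤
        Cd d * (Real.log T ^ 4 * (((h * l : ℕ) : ℝ) ^ (1 / 20 : ℝ) * (Nat.gcd h l : ℝ) / ((h : ℝ) * l)) +
          T ^ (-η2)) := by
    rw [Filter.eventually_all_finset]
    exact fun d _ => hCdev d
  filter_upwards [hev, h4, eventually_ge_atTop (16:ℝ), Real.tendsto_log_atTop.eventually_ge_atTop 1] with
    T hT hFB hT16 hlog κ hκ hκ3 U Z hTU hUA hZ a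
  have hT1 : 1 ≤ T := by linarith
  have hT0 : 0 < T := by linarith
  have hκ0 : 0 < κ := by
    have h := hκ.1
    have : (0:ℝ) < κ := by nlinarith
    exact_mod_cast this
  have hZ1 : 1 ≤ Z := by
    rw [hZ]
    exact Nat.le_floor (by simpa using Real.one_le_rpow hT1 hσ.le)
  have hZT : (Z : ℝ) ≤ T ^ σ := by
    rw [hZ]; exact Nat.floor_le (by positivity)
  have hint := om_int κ (∑ j, ke (a j)) T hκ0 hT1 (F0 k T) (T ^ 3) hFB.1 hFB.2.2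
  have e0 : (fun c => ‖TA k Z a κ T c‖ ^ 2) = fun c => ‖∑ q ∈ Fintype.piFinset (fun _ : Fin n => FR Z),
      cf k a κ T q * ∏ j, cexp (I * ((c j * lam (q j) : ℝ) : ℂ))‖ ^ 2 := by
    funext c
    rw [TA_eq k Z a κ T c hint]
  have hU : 4 * (Z : ℝ) ^ (2 * n + 1) ≤ U := by
    have e1 : (Z : ℝ) ^ (2 * n + 1) ≤ T ^ (1 / 2 : ℝ) := by
      calc (Z : ℝ) ^ (2 * n + 1) ≤ (T ^ σ) ^ (2 * n + 1) := pow_le_pow_left₀ (Nat.cast_nonneg _) hZT _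
        _ = T ^ (σ * (2 * n + 1 : ℕ)) := by rw [Real.rpow_mul_natCast hT0.le]
        _ ≤ _ := Real.rpow_le_rpow_of_exponent_le hT1 (by push_cast; exact s3')
    have e2 : T ^ (1 / 2 : ℝ) * T ^ (1 / 2 : ℝ) = T := by
      rw [← Real.rpow_add hT0]; norm_num
    have e3 : 4 ≤ T ^ (1 / 2 : ℝ) := by
      have h5 : 0 ≤ T ^ (1 / 2 : ℝ) := by positivity
      nlinarith
    have e4 : 0 ≤ T ^ (1 / 2 : ℝ) := by positivity
    nlinarith
  have h5 := h2 n Z U (cf k a κ T) hZ1 hU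
  rw [← e0] at h5
  refine h5.trans ?_
  have hU0 : 0 ≤ U ^ n := by
    have : 0 ≤ U := by linarith
    positivity
  have h6 := sum_bound Z T (Real.log T) (T ^ (-η2)) Cm C' σ (fun q => ‖cf k a κ T q‖) hT1 hZ1 hZT hlog η2 rfl s2'
    (fun q => norm_nonneg _) ?_ (by simpa using hAR Z)
  · calc 2 * U ^ n * ∑ q ∈ Fintype.piFinset (fun _ : Fin n => FR Z), ‖cf k a κ T q‖ ^ 2
        ≤ 2 * U ^ n * (2 * (21 ^ n * Cm) ^ 2 * ((C' + 1) * Real.log T ^ 8)) :=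
          mul_le_mul_of_nonneg_left h6 (by positivity)
      _ = _ := by ring
  · intro q hq
    have hq1 : ∀ j, 1 ≤ (q j).1 ∧ 1 ≤ (q j).2 := fun j => ⟨(FR_mem (hq j)).1, (FR_mem (hq j)).2.1⟩
    have hH1 : 1 ≤ ∏ j, (q j).1 := Nat.one_le_iff_ne_zero.2 (Finset.prod_ne_zero_iff.2 fun j _ => by
      have := (hq1 j).1; omega)
    have hL1 : 1 ≤ ∏ j, (q j).2 := Nat.one_le_iff_ne_zero.2 (Finset.prod_ne_zero_iff.2 fun j _ => by
      have := (hq1 j).2; omega)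
    have hHL := fst_le hq hT1 hZT s1'
    have hes : ∑ j, ke (a j) ≤ D := ke_sum_le a
    have h7 := hT (∑ j, ke (a j)) (Finset.mem_range.2 (by omega)) κ hκ hκ3 (∏ j, (q j).1) (∏ j, (q j).2)
      hH1 hL1 hHL.1 hHL.2
    have eP : ((∏ j, (q j).1 : ℕ) : ℝ) * ((∏ j, (q j).2 : ℕ) : ℝ) = ∏ j, ht (q j) := by
      push_cast
      rw [← Finset.prod_mul_distrib]
      rfl
    have eP' : (((∏ j, (q j).1) * (∏ j, (q j).2) : ℕ) : ℝ) = ∏ j, ht (q j) := by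
      rw [Nat.cast_mul, eP]
    rw [eP', eP] at h7
    have hht : ∀ j, 1 ≤ ht (q j) := fun j => ht_pos (hq1 j).1 (hq1 j).2
    have h8 := kc_prod a q hht
    have hP := P_le hq
    have hP0 : 0 < ∏ j, ht (q j) := by linarith [hP.1]
    have hsq : 0 ≤ ∏ j, √(ht (q j)) := Finset.prod_nonneg fun j _ => Real.sqrt_nonneg _
    unfold cf
    rw [norm_mul, norm_mul, Complex.norm_real, Complex.norm_real, Real.norm_eq_abs, Real.norm_eq_abs,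
      abs_of_nonneg hsq, ← mul_assoc]
    have h9 : 0 ≤ Real.log T ^ 4 * ((∏ j, ht (q j)) ^ (1 / 20 : ℝ) *
        (Nat.gcd (∏ j, (q j).1) (∏ j, (q j).2) : ℝ) / (∏ j, ht (q j))) + T ^ (-η2) := by positivity
    calc _ ≤ (21 ^ n * (∏ j, ht (q j)) ^ (1 / 20 : ℝ)) * (Cd (∑ j, ke (a j)) *
          (Real.log T ^ 4 * ((∏ j, ht (q j)) ^ (1 / 20 : ℝ) *
            (Nat.gcd (∏ j, (q j).1) (∏ j, (q j).2) : ℝ) / (∏ j, ht (q j))) + T ^ (-η2))) :=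
          mul_le_mul h8 h7 (norm_nonneg _) (by positivity)
      _ ≤ _ := by
          refine mul_le_mul_of_nonneg_left ?_ (by positivity)
          exact mul_le_mul_of_nonneg_right (hCle _ hes) h9

end

end Pool.Agent.Y293.SX
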